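import Pool.Agent.H947R2.DS.Stubs

/-! Task PROG of h947d_tasks (helper48): the convex progression. -/

set_option autoImplicit false
open Finset

namespace H947DS

namespace PROG

/-- numbering of the non-zero coordinates -/
noncomputable def e {n : ℕ} (x : Fin n → ℤ) : {i // x i ≠ 0} ≃ Fin (nzZ x) :=
  Fintype.equivFinOfCardEq (by rw [Fintype.card_subtype]; rfl)

/-- the half side lengths -/
noncomputable def r {n : ℕ} (x : Fin n → ℤ) (j : Fin (nzZ x)) : ℤ := |x ((e x).symm j).1| / 2

/-- the box -/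
def B {n : ℕ} (x : Fin n → ℤ) : Set (Fin (nzZ x) → ℝ) :=
  Set.pi Set.univ (fun j => Set.Icc (-((r x j : ℝ) + 1 / 2)) ((r x j : ℝ) + 1 / 2))

/-- the projection -/
noncomputable def psi {n : ℕ} (x : Fin n → ℤ) : (Fin (nzZ x) → ℤ) →+ (Fin n → ℤ) where
  toFun z i := if h : x i ≠ 0 then z (e x ⟨i, h⟩) else 0
  map_zero' := by
    funext i
    by_cases h : x i ≠ 0 <;> simp [h]
  map_add' a b := by
    funext i
    simp only [Pi.add_apply]
    by_cases h : x i ≠ 0
    · rw [dif_pos h, dif_pos h, dif_pos h]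
    · rw [dif_neg h, dif_neg h, dif_neg h, add_zero]

theorem r_nonneg {n : ℕ} (x : Fin n → ℤ) (j : Fin (nzZ x)) : 0 ≤ r x j :=
  Int.ediv_nonneg (abs_nonneg _) (by norm_num)

theorem mem_B {n : ℕ} (x : Fin n → ℤ) (z : Fin (nzZ x) → ℤ) :
    (fun i => (z i : ℝ)) ∈ B x ↔ ∀ j, -r x j ≤ z j ∧ z j ≤ r x j := by
  unfold B
  rw [Set.mem_univ_pi]
  refine forall_congr' fun j => ?_
  rw [Set.mem_Icc]
  constructor
  · rintro ⟨h1, h2⟩
    constructor
    · have h3 : (-(r x j) : ℝ) < z j + 1 := by linarith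
      have h4 : -(r x j) < z j + 1 := by exact_mod_cast h3
      omega
    · have h3 : (z j : ℝ) < r x j + 1 := by linarith
      have h4 : z j < r x j + 1 := by exact_mod_cast h3
      omega
  · rintro ⟨h1, h2⟩
    have h3 : (-(r x j) : ℝ) ≤ z j := by exact_mod_cast h1
    have h4 : (z j : ℝ) ≤ r x j := by exact_mod_cast h2
    constructor <;> linarith

theorem lattice {n : ℕ} (x : Fin n → ℤ) :
    {z : Fin (nzZ x) → ℤ | (fun i => (z i : ℝ)) ∈ B x} =
      ((Fintype.piFinset (fun j => Finset.Icc (-(r x j)) (r x j)) :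
        Finset (Fin (nzZ x) → ℤ)) : Set (Fin (nzZ x) → ℤ)) := by
  ext z
  rw [Set.mem_ofPred_eq, mem_B, Finset.mem_coe, Fintype.mem_piFinset]
  simp only [Finset.mem_Icc]

end PROG

open PROG

theorem PROG_proof : St_PROG := by
  intro n x
  refine ⟨B x, psi x, ?_, ?_, ?_, ?_, ?_, ?_, ?_⟩
  · exact convex_pi (fun i _ => convex_Icc _ _)
  · exact isCompact_univ_pi (fun i => isCompact_Icc)
  · refine ⟨0, ?_⟩
    unfold B
    rw [interior_pi_set Set.finite_univ, Set.mem_univ_pi]
    intro j
    rw [interior_Icc, Set.mem_Ioo]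
    have h1 : (0 : ℝ) ≤ r x j := by exact_mod_cast r_nonneg x j
    simp only [Pi.zero_apply]
    constructor <;> linarith
  · intro y hy
    unfold B at hy ⊢
    rw [Set.mem_univ_pi] at hy ⊢
    intro j
    have h1 := hy j
    rw [Set.mem_Icc] at h1 ⊢
    simp only [Pi.neg_apply]
    constructor <;> linarith [h1.1, h1.2]
  · rw [lattice]
    exact Finset.finite_toSet _
  · rw [lattice, Set.ncard_coe_finset, Fintype.card_piFinset]
    push_cast
    have h1 : ∀ j : Fin (nzZ x), ((Finset.Icc (-(r x j)) (r x j)).card : ℤ) ≤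
        |x ((e x).symm j).1| + 1 := by
      intro j
      rw [Int.card_Icc]
      have h2 := r_nonneg x j
      have h3 : r x j = |x ((e x).symm j).1| / 2 := rfl
      omega
    calc ∏ j : Fin (nzZ x), ((Finset.Icc (-(r x j)) (r x j)).card : ℤ)
        ≤ ∏ j : Fin (nzZ x), (|x ((e x).symm j).1| + 1) :=
          Finset.prod_le_prod (fun j _ => by positivity) (fun j _ => h1 j)
      _ = ∏ i : {i // x i ≠ 0}, (|x i.1| + 1) :=
          Equiv.prod_comp (e x).symm (fun i : {i // x i ≠ 0} => |x i.1| + 1)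
      _ = ∏ i ∈ univ.filter (fun i => x i ≠ 0), (|x i| + 1) :=
          (Finset.prod_subtype (univ.filter (fun i => x i ≠ 0)) (by simp)
            (fun i => |x i| + 1)).symm
      _ = ∏ i, (|x i| + 1) := by
          apply Finset.prod_filter_of_ne
          intro i _ hi h0
          exact hi (by rw [h0]; simp)
      _ ≤ ∏ i, (|x i| + 1) := le_rfl
  · intro v hv
    refine ⟨fun j => v ((e x).symm j).1, ?_, ?_⟩
    · rw [mem_B]
      intro j
      have h1 := hv ((e x).symm j).1
      rw [abs_le] at h1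
      exact h1
    · funext i
      change (if h : x i ≠ 0 then v ((e x).symm (e x ⟨i, h⟩)).1 else 0) = v i
      by_cases h : x i ≠ 0
      · rw [dif_pos h, Equiv.symm_apply_apply]
      · rw [dif_neg h]
        rw [not_not] at h
        have h1 := hv i
        rw [h] at h1
        simp only [abs_zero] at h1
        have h2 : |v i| ≤ 0 := by simpa using h1
        exact (abs_eq_zero.1 (le_antisymm h2 (abs_nonneg _))).symm

end H947DS
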